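import Pool.Agent.Helper6.AP.Words
import Pool.Agent.Helper39.CJ.RE

/-!
# Computability of q-step monotonicity on the systems whose cycle lengths are controlled by `q`
-/

set_option autoImplicit false

namespace Pool.Agent.Helper6.AP

open Pool.Agent.CQ

/-- D0L systems -/
abbrev Sys : Type := List (List ℕ) × List ℕ

section tools

variable {α β : Type*} [Primcodable α] [Primcodable β]

theorem cp_mem [DecidableEq β] {f : α → β} {g : α → List β} (hf : Computable f)
    (hg : Computable g) : ComputablePred (fun a => f a ∈ g a) := by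
  have h1 : PrimrecRel (fun (L : List β) (b : β) => ∃ a ∈ L, a = b) :=
    PrimrecRel.exists_mem_list Primrec.eq
  have h2 : PrimrecRel (fun (L : List β) (b : β) => b ∈ L) := by
    refine PrimrecRel.of_eq h1 fun L b => ?_
    constructor
    · rintro ⟨a, ha, rfl⟩
      exact ha
    · intro hb
      exact ⟨b, hb, rfl⟩
  have h3 : Computable (fun p : List β × β => decide (p.2 ∈ p.1)) := h2.decide.to_comp
  refine ⟨inferInstance, ?_⟩
  exact (h3.comp (hg.pair hf)).of_eq fun a => by simp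

theorem cp_le {f g : α → ℕ} (hf : Computable f) (hg : Computable g) :
    ComputablePred (fun a => f a ≤ g a) := by
  have h : PrimrecRel (fun a b : ℕ => a ≤ b) := Primrec.nat_le
  have h1 : Computable (fun p : ℕ × ℕ => decide (p.1 ≤ p.2)) := h.decide.to_comp
  refine ⟨inferInstance, ?_⟩
  exact (h1.comp (hf.pair hg)).of_eq (fun a => by simp)

theorem c_it {f : α → Sys} {n : α → ℕ} {w : α → List ℕ} (hf : Computable f)
    (hn : Computable n) (hw : Computable w) : Computable (fun a => it (f a) (n a) (w a)) := by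
  have hstep : Primrec₂ (fun (q : Sys × (ℕ × List ℕ)) (w : List ℕ) =>
      w.flatMap (fun a => q.1.1.getD a [])) := by
    refine Primrec.list_flatMap Primrec.snd ?_
    exact (Primrec.list_getD ([] : List ℕ)).comp
      (Primrec.fst.comp (Primrec.fst.comp (Primrec.fst.comp Primrec.fst))) Primrec.snd
  have h1 : Primrec (fun q : Sys × (ℕ × List ℕ) =>
      (fun w : List ℕ => w.flatMap (fun a => q.1.1.getD a []))^[q.2.1] q.2.2) :=
    Primrec.nat_iterate (Primrec.fst.comp Primrec.snd) (Primrec.snd.comp Primrec.snd) hstep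
  have h2 : Computable (fun a => ((f a, (n a, w a)) : Sys × (ℕ × List ℕ))) :=
    hf.pair (hn.pair hw)
  exact h1.to_comp.comp h2

theorem c_h {f : α → Sys} {a : α → ℕ} (hf : Computable f) (ha : Computable a) :
    Computable (fun x => (f x).1.getD (a x) []) := by
  have h1 : Primrec₂ (fun (l : List (List ℕ)) (n : ℕ) => l.getD n []) :=
    Primrec.list_getD ([] : List ℕ)
  exact h1.to_comp.comp (Computable.fst.comp hf) ha

theorem c_single {a : α → ℕ} (ha : Computable a) : Computable (fun x => [a x]) := by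
  have h1 : Primrec (fun n : ℕ => [n]) := Primrec.list_cons.comp Primrec.id (Primrec.const [])
  exact h1.to_comp.comp ha

theorem c_mul {f g : α → ℕ} (hf : Computable f) (hg : Computable g) :
    Computable (fun a => f a * g a) := by
  have h1 : Primrec₂ (fun a b : ℕ => a * b) := Primrec.nat_mul
  exact h1.to_comp.comp hf hg

theorem c_add {f g : α → ℕ} (hf : Computable f) (hg : Computable g) :
    Computable (fun a => f a + g a) := by
  have h1 : Primrec₂ (fun a b : ℕ => a + b) := Primrec.nat_add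
  exact h1.to_comp.comp hf hg

theorem c_mod {f g : α → ℕ} (hf : Computable f) (hg : Computable g) :
    Computable (fun a => f a % g a) := by
  have h1 : Primrec₂ (fun a b : ℕ => a % b) := Primrec.nat_mod
  exact h1.to_comp.comp hf hg

theorem c_len {f : α → List ℕ} (hf : Computable f) : Computable (fun a => (f a).length) :=
  Computable.list_length.comp hf

end tools

/-! ### The r.e. forms -/

/-- `R` contains the letters of `w` and is closed under `h` -/
def Cl (p : Sys) (w R : List ℕ) : Prop :=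
  (∀ a ∈ w, a ∈ R) ∧ ∀ a ∈ R, ∀ b ∈ p.1.getD a [], b ∈ R

/-- certificate: `a` is not recurrent -/
def NR (p : Sys) (a : ℕ) : Prop := ∃ T : List ℕ, Cl p (p.1.getD a []) T ∧ a ∉ T

/-- certificate: consecutive multiples of `q` are return times -/
def CR (p : Sys) (q a : ℕ) : Prop := ∃ m, a ∈ it p (q * m) [a] ∧ a ∈ it p (q * (m + 1)) [a]

/-- certificate for `Per` -/
def PC (s : Sys × ℕ) : Prop := ∃ R : List ℕ, Cl s.1 s.1.2 R ∧ ∀ a ∈ R, NR s.1 a ∨ CR s.1 s.2 a

/-- certificate for monotonicity -/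
def MC (s : Sys × ℕ) : Prop := ∃ R : List ℕ, ∃ N : ℕ, Cl s.1 s.1.2 R ∧
  (∀ a ∈ R, (it s.1 N [a]).length ≤ (it s.1 (N + s.2) [a]).length) ∧
  ∀ n ∈ List.range N, (it s.1 n s.1.2).length ≤ (it s.1 (n + s.2) s.1.2).length

/-- the labelled closed set `T` for the failure of `Per` -/
def LC (p : Sys) (a d : ℕ) (T : List (ℕ × ℕ)) : Prop :=
  (a, 0) ∈ T ∧ (∀ x ∈ T, ∀ c ∈ p.1.getD x.1 [], (c, (x.2 + 1) % d) ∈ T) ∧
    ∀ x ∈ T, x.1 = a → x.2 = 0

/-- certificate for the failure of `Per` -/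
def NP (s : Sys × ℕ) : Prop := ∃ a m n d : ℕ, ∃ T : List (ℕ × ℕ),
  a ∈ it s.1 m s.1.2 ∧ (n ≠ 0 ∧ a ∈ it s.1 n [a]) ∧ s.2 % d ≠ 0 ∧ LC s.1 a d T

section re

variable {α : Type*} [Primcodable α]

theorem re_Cl {f : α → Sys} {w R : α → List ℕ} (hf : Computable f) (hw : Computable w)
    (hR : Computable R) : REPred (fun x => Cl (f x) (w x) (R x)) := by
  unfold Cl
  refine re_and ?_ ?_
  · refine re_forall_list (R := fun (x : α) (a : ℕ) => a ∈ R x) ?_ hw
    exact (cp_mem Computable.snd (hR.comp Computable.fst)).to_re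
  · refine re_forall_list (R := fun (x : α) (a : ℕ) => ∀ b ∈ (f x).1.getD a [], b ∈ R x) ?_ hR
    refine re_forall_list (R := fun (x : α × ℕ) (b : ℕ) => b ∈ R x.1) ?_
      (c_h (hf.comp Computable.fst) Computable.snd)
    exact (cp_mem Computable.snd (hR.comp (Computable.fst.comp Computable.fst))).to_re

theorem re_NR {f : α → Sys} {a : α → ℕ} (hf : Computable f) (ha : Computable a) :
    REPred (fun x => NR (f x) (a x)) := by
  unfold NR
  refine re_exists (R := fun (x : α) (T : List ℕ) => Cl (f x) ((f x).1.getD (a x) []) T ∧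
    a x ∉ T) ?_
  refine re_and ?_ ?_
  · exact re_Cl (hf.comp Computable.fst) (c_h (hf.comp Computable.fst) (ha.comp Computable.fst))
      Computable.snd
  · exact (cp_mem (ha.comp Computable.fst) Computable.snd).not.to_re

theorem re_CR {f : α → Sys} {q a : α → ℕ} (hf : Computable f) (hq : Computable q)
    (ha : Computable a) : REPred (fun x => CR (f x) (q x) (a x)) := by
  unfold CR
  refine re_exists (R := fun (x : α) (m : ℕ) => a x ∈ it (f x) (q x * m) [a x] ∧
    a x ∈ it (f x) (q x * (m + 1)) [a x]) ?_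
  have hf' := hf.comp (Computable.fst (α := α) (β := ℕ))
  have hq' := hq.comp (Computable.fst (α := α) (β := ℕ))
  have ha' := ha.comp (Computable.fst (α := α) (β := ℕ))
  refine re_and ?_ ?_
  · exact (cp_mem ha' (c_it hf' (c_mul hq' Computable.snd) (c_single ha'))).to_re
  · exact (cp_mem ha' (c_it hf' (c_mul hq' (Computable.succ.comp Computable.snd))
      (c_single ha'))).to_re

theorem re_PC : REPred PC := by
  unfold PC
  refine re_exists (R := fun (s : Sys × ℕ) (R : List ℕ) => Cl s.1 s.1.2 R ∧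
    ∀ a ∈ R, NR s.1 a ∨ CR s.1 s.2 a) ?_
  refine re_and ?_ ?_
  · exact re_Cl (Computable.fst.comp Computable.fst)
      (Computable.snd.comp (Computable.fst.comp Computable.fst)) Computable.snd
  · refine re_forall_list (R := fun (x : (Sys × ℕ) × List ℕ) (a : ℕ) =>
      NR x.1.1 a ∨ CR x.1.1 x.1.2 a) ?_ Computable.snd
    have h1 : Computable (fun y : ((Sys × ℕ) × List ℕ) × ℕ => y.1.1.1) :=
      Computable.fst.comp (Computable.fst.comp Computable.fst)
    have h2 : Computable (fun y : ((Sys × ℕ) × List ℕ) × ℕ => y.1.1.2) :=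
      Computable.snd.comp (Computable.fst.comp Computable.fst)
    exact re_or (re_NR h1 Computable.snd) (re_CR h1 h2 Computable.snd)

theorem re_MC : REPred MC := by
  unfold MC
  refine re_exists (R := fun (s : Sys × ℕ) (R : List ℕ) => ∃ N : ℕ, Cl s.1 s.1.2 R ∧
    (∀ a ∈ R, (it s.1 N [a]).length ≤ (it s.1 (N + s.2) [a]).length) ∧
    ∀ n ∈ List.range N, (it s.1 n s.1.2).length ≤ (it s.1 (n + s.2) s.1.2).length) ?_
  refine re_exists (R := fun (x : (Sys × ℕ) × List ℕ) (N : ℕ) => Cl x.1.1 x.1.1.2 x.2 ∧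
    (∀ a ∈ x.2, (it x.1.1 N [a]).length ≤ (it x.1.1 (N + x.1.2) [a]).length) ∧
    ∀ n ∈ List.range N, (it x.1.1 n x.1.1.2).length ≤
      (it x.1.1 (n + x.1.2) x.1.1.2).length) ?_
  have hp : Computable (fun y : ((Sys × ℕ) × List ℕ) × ℕ => y.1.1.1) :=
    Computable.fst.comp (Computable.fst.comp Computable.fst)
  have hq : Computable (fun y : ((Sys × ℕ) × List ℕ) × ℕ => y.1.1.2) :=
    Computable.snd.comp (Computable.fst.comp Computable.fst)
  have hR : Computable (fun y : ((Sys × ℕ) × List ℕ) × ℕ => y.1.2) :=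
    Computable.snd.comp Computable.fst
  refine re_and (re_Cl hp (Computable.snd.comp hp) hR) (re_and ?_ ?_)
  · refine re_forall_list (R := fun (y : ((Sys × ℕ) × List ℕ) × ℕ) (a : ℕ) =>
      (it y.1.1.1 y.2 [a]).length ≤ (it y.1.1.1 (y.2 + y.1.1.2) [a]).length) ?_ hR
    have hp' := hp.comp (Computable.fst (α := ((Sys × ℕ) × List ℕ) × ℕ) (β := ℕ))
    have hq' := hq.comp (Computable.fst (α := ((Sys × ℕ) × List ℕ) × ℕ) (β := ℕ))
    have hN' : Computable (fun z : (((Sys × ℕ) × List ℕ) × ℕ) × ℕ => z.1.2) :=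
      Computable.snd.comp Computable.fst
    exact (cp_le (c_len (c_it hp' hN' (c_single Computable.snd)))
      (c_len (c_it hp' (c_add hN' hq') (c_single Computable.snd)))).to_re
  · refine re_forall_list (R := fun (y : ((Sys × ℕ) × List ℕ) × ℕ) (n : ℕ) =>
      (it y.1.1.1 n y.1.1.1.2).length ≤ (it y.1.1.1 (n + y.1.1.2) y.1.1.1.2).length) ?_
      (Primrec.list_range.to_comp.comp Computable.snd)
    have hp' := hp.comp (Computable.fst (α := ((Sys × ℕ) × List ℕ) × ℕ) (β := ℕ))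
    have hq' := hq.comp (Computable.fst (α := ((Sys × ℕ) × List ℕ) × ℕ) (β := ℕ))
    exact (cp_le (c_len (c_it hp' Computable.snd (Computable.snd.comp hp')))
      (c_len (c_it hp' (c_add Computable.snd hq') (Computable.snd.comp hp')))).to_re

theorem re_LC {f : α → Sys} {a d : α → ℕ} {T : α → List (ℕ × ℕ)} (hf : Computable f)
    (ha : Computable a) (hd : Computable d) (hT : Computable T) :
    REPred (fun x => LC (f x) (a x) (d x) (T x)) := by
  unfold LC
  refine re_and ?_ (re_and ?_ ?_)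
  · exact (cp_mem (ha.pair (Computable.const 0)) hT).to_re
  · refine re_forall_list (R := fun (x : α) (y : ℕ × ℕ) =>
      ∀ c ∈ (f x).1.getD y.1 [], (c, (y.2 + 1) % d x) ∈ T x) ?_ hT
    refine re_forall_list (R := fun (x : α × (ℕ × ℕ)) (c : ℕ) =>
      (c, (x.2.2 + 1) % d x.1) ∈ T x.1) ?_
      (c_h (hf.comp Computable.fst) (Computable.fst.comp Computable.snd))
    refine (cp_mem (Computable.snd.pair (c_mod ?_ ?_)) ?_).to_re
    · exact Computable.succ.comp (Computable.snd.comp (Computable.snd.comp Computable.fst))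
    · exact hd.comp (Computable.fst.comp Computable.fst)
    · exact hT.comp (Computable.fst.comp Computable.fst)
  · have h1 : REPred (fun x => ∀ y ∈ T x, y.1 ≠ a x ∨ y.2 = 0) := by
      refine re_forall_list (R := fun (x : α) (y : ℕ × ℕ) => y.1 ≠ a x ∨ y.2 = 0) ?_ hT
      exact re_or (re_ne (Computable.fst.comp Computable.snd) (ha.comp Computable.fst))
        (re_eq (Computable.snd.comp Computable.snd) (Computable.const 0))
    refine h1.of_eq fun x => ?_
    refine forall₂_congr fun y _ => ?_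
    rw [imp_iff_not_or]

theorem re_NP : REPred NP := by
  unfold NP
  refine re_exists (R := fun (s : Sys × ℕ) (a : ℕ) => ∃ m n d : ℕ, ∃ T : List (ℕ × ℕ),
    a ∈ it s.1 m s.1.2 ∧ (n ≠ 0 ∧ a ∈ it s.1 n [a]) ∧ s.2 % d ≠ 0 ∧ LC s.1 a d T) ?_
  refine re_exists (R := fun (x : (Sys × ℕ) × ℕ) (m : ℕ) => ∃ n d : ℕ, ∃ T : List (ℕ × ℕ),
    x.2 ∈ it x.1.1 m x.1.1.2 ∧ (n ≠ 0 ∧ x.2 ∈ it x.1.1 n [x.2]) ∧ x.1.2 % d ≠ 0 ∧
      LC x.1.1 x.2 d T) ?_
  refine re_exists (R := fun (y : ((Sys × ℕ) × ℕ) × ℕ) (n : ℕ) => ∃ d : ℕ, ∃ T : List (ℕ × ℕ),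
    y.1.2 ∈ it y.1.1.1 y.2 y.1.1.1.2 ∧ (n ≠ 0 ∧ y.1.2 ∈ it y.1.1.1 n [y.1.2]) ∧
      y.1.1.2 % d ≠ 0 ∧ LC y.1.1.1 y.1.2 d T) ?_
  refine re_exists (R := fun (z : (((Sys × ℕ) × ℕ) × ℕ) × ℕ) (d : ℕ) => ∃ T : List (ℕ × ℕ),
    z.1.1.2 ∈ it z.1.1.1.1 z.1.2 z.1.1.1.1.2 ∧ (z.2 ≠ 0 ∧ z.1.1.2 ∈ it z.1.1.1.1 z.2 [z.1.1.2]) ∧
      z.1.1.1.2 % d ≠ 0 ∧ LC z.1.1.1.1 z.1.1.2 d T) ?_
  refine re_exists (R := fun (u : ((((Sys × ℕ) × ℕ) × ℕ) × ℕ) × ℕ) (T : List (ℕ × ℕ)) =>
    u.1.1.1.2 ∈ it u.1.1.1.1.1 u.1.1.2 u.1.1.1.1.1.2 ∧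
      (u.1.2 ≠ 0 ∧ u.1.1.1.2 ∈ it u.1.1.1.1.1 u.1.2 [u.1.1.1.2]) ∧
      u.1.1.1.1.2 % u.2 ≠ 0 ∧ LC u.1.1.1.1.1 u.1.1.1.2 u.2 T) ?_
  have h0 : Computable (fun v : (((((Sys × ℕ) × ℕ) × ℕ) × ℕ) × ℕ) × List (ℕ × ℕ) => v.1) :=
    Computable.fst
  have hd : Computable (fun v : (((((Sys × ℕ) × ℕ) × ℕ) × ℕ) × ℕ) × List (ℕ × ℕ) => v.1.2) :=
    Computable.snd.comp h0
  have h1 : Computable (fun v : (((((Sys × ℕ) × ℕ) × ℕ) × ℕ) × ℕ) × List (ℕ × ℕ) => v.1.1) :=
    Computable.fst.comp h0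
  have hn : Computable (fun v : (((((Sys × ℕ) × ℕ) × ℕ) × ℕ) × ℕ) × List (ℕ × ℕ) => v.1.1.2) :=
    Computable.snd.comp h1
  have h2 : Computable (fun v : (((((Sys × ℕ) × ℕ) × ℕ) × ℕ) × ℕ) × List (ℕ × ℕ) => v.1.1.1) :=
    Computable.fst.comp h1
  have hm : Computable (fun v : (((((Sys × ℕ) × ℕ) × ℕ) × ℕ) × ℕ) × List (ℕ × ℕ) =>
      v.1.1.1.2) := Computable.snd.comp h2
  have h3 : Computable (fun v : (((((Sys × ℕ) × ℕ) × ℕ) × ℕ) × ℕ) × List (ℕ × ℕ) =>
      v.1.1.1.1) := Computable.fst.comp h2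
  have ha : Computable (fun v : (((((Sys × ℕ) × ℕ) × ℕ) × ℕ) × ℕ) × List (ℕ × ℕ) =>
      v.1.1.1.1.2) := Computable.snd.comp h3
  have h4 : Computable (fun v : (((((Sys × ℕ) × ℕ) × ℕ) × ℕ) × ℕ) × List (ℕ × ℕ) =>
      v.1.1.1.1.1) := Computable.fst.comp h3
  have hq : Computable (fun v : (((((Sys × ℕ) × ℕ) × ℕ) × ℕ) × ℕ) × List (ℕ × ℕ) =>
      v.1.1.1.1.1.2) := Computable.snd.comp h4
  have hp : Computable (fun v : (((((Sys × ℕ) × ℕ) × ℕ) × ℕ) × ℕ) × List (ℕ × ℕ) =>
      v.1.1.1.1.1.1) := Computable.fst.comp h4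
  refine re_and ?_ (re_and (re_and ?_ ?_) (re_and ?_ ?_))
  · exact (cp_mem ha (c_it hp hm (Computable.snd.comp hp))).to_re
  · exact re_ne hn (Computable.const 0)
  · exact (cp_mem ha (c_it hp hn (c_single ha))).to_re
  · exact re_ne (c_mod hq hd) (Computable.const 0)
  · exact re_LC hp ha hd Computable.snd

end re

/-! ### Correctness -/

theorem mem_of_Cl {p : Sys} {w R : List ℕ} (h : Cl p w R) (n : ℕ) : ∀ a ∈ it p n w, a ∈ R := by
  induction n with
  | zero => exact h.1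
  | succ n ih =>
    intro a ha
    rw [add_comm, it_add, it_one, List.mem_flatMap] at ha
    obtain ⟨b, hb, hab⟩ := ha
    exact h.2 b (ih b hb) a hab

/-- the list of the letters that occur in some `hⁿ(w)` -/
theorem exists_Cl (p : Sys) (w : List ℕ) : ∃ R : List ℕ, Cl p w R ∧
    ∀ a ∈ R, ∃ n, a ∈ it p n w := by
  classical
  obtain ⟨s, hs, -⟩ := exists_bound p
  obtain ⟨t, ht⟩ : ∃ t : ℕ, s ≤ t ∧ ∀ b ∈ w, b < t := by
    refine ⟨s + (w.toFinset.sup id + 1), by omega, fun b hb => ?_⟩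
    have := Finset.le_sup (f := id) (List.mem_toFinset.2 hb)
    simp only [id] at this
    omega
  have hs' : ∀ a b, b ∈ p.1.getD a [] → b < t := fun a b hb => (hs a b hb).trans_le ht.1
  refine ⟨(List.range t).filter fun a => decide (∃ n, a ∈ it p n w), ⟨?_, ?_⟩, ?_⟩
  · intro a ha
    rw [List.mem_filter, List.mem_range]
    exact ⟨ht.2 a ha, decide_eq_true ⟨0, ha⟩⟩
  · intro a ha b hb
    rw [List.mem_filter, List.mem_range] at ha ⊢
    obtain ⟨n, hn⟩ := of_decide_eq_true ha.2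
    refine ⟨hs' a b hb, decide_eq_true ⟨1 + n, ?_⟩⟩
    rw [it_add, it_one, List.mem_flatMap]
    exact ⟨a, hn, hb⟩
  · intro a ha
    rw [List.mem_filter] at ha
    exact of_decide_eq_true ha.2

theorem nr_iff (p : Sys) (a : ℕ) : NR p a ↔ ¬ ∃ n, 0 < n ∧ a ∈ it p n [a] := by
  constructor
  · rintro ⟨T, hT, haT⟩ ⟨n, hn, ha⟩
    obtain ⟨m, rfl⟩ : ∃ m, n = m + 1 := ⟨n - 1, by omega⟩
    rw [it_succ_single] at ha
    exact haT (mem_of_Cl hT m a ha)
  · intro h
    obtain ⟨T, hT, hT'⟩ := exists_Cl p (p.1.getD a [])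
    refine ⟨T, hT, fun ha => h ?_⟩
    obtain ⟨n, hn⟩ := hT' a ha
    exact ⟨n + 1, Nat.succ_pos _, by rwa [it_succ_single]⟩

theorem pc_iff (s : Sys × ℕ) : PC s ↔ Per s.1 s.2 := by
  constructor
  · rintro ⟨R, hR, h⟩ a ⟨m, hm⟩ hrec d hd
    rcases h a (mem_of_Cl hR m a hm) with h1 | ⟨k, hk1, hk2⟩
    · exact absurd hrec ((nr_iff _ _).1 h1)
    · have key : ∀ j, a ∈ it s.1 (s.2 * j) [a] → d ∣ s.2 * j := by
        intro j hj
        rcases Nat.eq_zero_or_pos (s.2 * j) with h0 | h0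
        · rw [h0]
          exact dvd_zero d
        · exact hd _ h0 hj
      have h2 := key k hk1
      have h3 := key (k + 1) hk2
      rw [Nat.mul_succ] at h3
      exact (Nat.dvd_add_right h2).1 h3
  · intro h
    obtain ⟨R, hR, hR'⟩ := exists_Cl s.1 s.1.2
    refine ⟨R, hR, fun a ha => ?_⟩
    by_cases hrec : ∃ n, 0 < n ∧ a ∈ it s.1 n [a]
    · exact Or.inr (cons_of_gcd (h a (hR' a ha) hrec))
    · exact Or.inl ((nr_iff _ _).2 hrec)

theorem np_iff (s : Sys × ℕ) : NP s ↔ ¬ Per s.1 s.2 := by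
  classical
  constructor
  · rintro ⟨a, m, n, d, T, hm, ⟨hn, hn'⟩, hq, hT⟩ h
    have h1 := h a ⟨m, hm⟩ ⟨n, Nat.pos_of_ne_zero hn, hn'⟩ d ?_
    · exact hq (Nat.mod_eq_zero_of_dvd h1)
    · have key : ∀ k b, b ∈ it s.1 k [a] → (b, k % d) ∈ T := by
        intro k
        induction k with
        | zero =>
          intro b hb
          rw [it_zero, List.mem_singleton] at hb
          rw [hb, Nat.zero_mod]
          exact hT.1
        | succ k ih =>
          intro b hb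
          rw [add_comm, it_add, it_one, List.mem_flatMap] at hb
          obtain ⟨c, hc, hbc⟩ := hb
          have h2 := hT.2.1 _ (ih c hc) b hbc
          simp only at h2
          rwa [Nat.mod_add_mod] at h2
      intro k _ hk
      exact Nat.dvd_of_mod_eq_zero (hT.2.2 _ (key k a hk) rfl)
  · intro h
    unfold Per at h
    push Not at h
    obtain ⟨a, ⟨m, hm⟩, ⟨n, hn, hn'⟩, d, hd, hdq⟩ := h
    have hd0 : 0 < d := by
      rcases Nat.eq_zero_or_pos d with h0 | h0
      · have h1 := hd n hn hn'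
        rw [h0, zero_dvd_iff] at h1
        omega
      · exact h0
    obtain ⟨R, hR, hR'⟩ := exists_Cl s.1 [a]
    refine ⟨a, m, n, d, (R ×ˢ List.range d).filter fun x => decide (∃ k, x.1 ∈ it s.1 k [a] ∧
      k % d = x.2), hm, ⟨hn.ne', hn'⟩, fun h0 => hdq (Nat.dvd_of_mod_eq_zero h0), ?_, ?_, ?_⟩
    · rw [List.mem_filter, List.mem_product, List.mem_range]
      refine ⟨⟨hR.1 a (List.mem_singleton.2 rfl), hd0⟩, decide_eq_true ⟨0, ?_, Nat.zero_mod d⟩⟩
      exact List.mem_singleton.2 rfl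
    · rintro ⟨b, i⟩ hx c hc
      rw [List.mem_filter, List.mem_product, List.mem_range] at hx ⊢
      obtain ⟨k, hk, hki⟩ := of_decide_eq_true hx.2
      refine ⟨⟨hR.2 b hx.1.1 c hc, Nat.mod_lt _ hd0⟩, decide_eq_true ⟨1 + k, ?_, ?_⟩⟩
      · rw [it_add, it_one, List.mem_flatMap]
        exact ⟨b, hk, hc⟩
      · simp only at hki ⊢
        rw [← hki, Nat.mod_add_mod, add_comm]
    · rintro ⟨b, i⟩ hx hb
      rw [List.mem_filter, List.mem_product, List.mem_range] at hx
      obtain ⟨k, hk, hki⟩ := of_decide_eq_true hx.2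
      simp only at hb hk hki ⊢
      rw [hb] at hk
      rw [← hki]
      rcases Nat.eq_zero_or_pos k with h0 | h0
      · rw [h0, Nat.zero_mod]
      · exact Nat.mod_eq_zero_of_dvd (hd k h0 hk)

/-- `q`-step monotonicity -/
def Mon (s : Sys × ℕ) : Prop :=
  ∀ n, (it s.1 n s.1.2).length ≤ (it s.1 (n + s.2) s.1.2).length

theorem mc_iff (s : Sys × ℕ) (h : Per s.1 s.2) : MC s ↔ Mon s := by
  constructor
  · rintro ⟨R, N, hR, hN, hsmall⟩ n
    rcases lt_or_ge n N with h1 | h1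
    · exact hsmall n (List.mem_range.2 h1)
    · exact cert_sound R hR.1 hR.2 hN n h1
  · intro hM
    obtain ⟨R, hR, hR'⟩ := exists_Cl s.1 s.1.2
    obtain ⟨N, hN⟩ := cert_exists h
    exact ⟨R, N, hR, fun a ha => hN a (hR' a ha), fun n _ => hM n⟩

theorem re_not_Mon : REPred (fun s : Sys × ℕ => ¬ Mon s) := by
  have h1 : REPred (fun s : Sys × ℕ => ∃ n, ¬ ((it s.1 n s.1.2).length ≤
      (it s.1 (n + s.2) s.1.2).length)) := by
    refine re_exists (R := fun (s : Sys × ℕ) (n : ℕ) => ¬ ((it s.1 n s.1.2).length ≤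
      (it s.1 (n + s.2) s.1.2).length)) ?_
    have hp : Computable (fun x : (Sys × ℕ) × ℕ => x.1.1) := Computable.fst.comp Computable.fst
    have hq : Computable (fun x : (Sys × ℕ) × ℕ => x.1.2) := Computable.snd.comp Computable.fst
    exact (cp_le (c_len (c_it hp Computable.snd (Computable.snd.comp hp)))
      (c_len (c_it hp (c_add Computable.snd hq) (Computable.snd.comp hp)))).not.to_re
  refine h1.of_eq fun s => ?_
  unfold Mon
  rw [not_forall]

/-- **Main theorem.** -/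
theorem step_mono : ComputablePred (fun s : Sys × ℕ => Per s.1 s.2 ∧ Mon s) := by
  refine computable_of_re ?_ ?_
  · refine (re_and re_PC re_MC).of_eq fun s => ?_
    constructor
    · rintro ⟨h1, h2⟩
      have h3 := (pc_iff s).1 h1
      exact ⟨h3, (mc_iff s h3).1 h2⟩
    · rintro ⟨h1, h2⟩
      exact ⟨(pc_iff s).2 h1, (mc_iff s h1).2 h2⟩
  · refine (re_or re_NP re_not_Mon).of_eq fun s => ?_
    rw [np_iff, not_and_or]

end Pool.Agent.Helper6.AP
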