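import Pool.Agent.Helper6.AP.Prim

/-!
# Aperiodic nonnegative integer matrices: the general (reducible) case
-/

set_option autoImplicit false

namespace Pool.Agent.Helper6.AP

open Finset

variable {ι : Type*} [Fintype ι] [DecidableEq ι]

/-- `j` is reachable from `i` -/
def Rch (A : Matrix ι ι ℕ) (i j : ι) : Prop := ∃ n, 0 < (A ^ n) i j

theorem rch_refl (A : Matrix ι ι ℕ) (i : ι) : Rch A i i := ⟨0, by simp⟩

theorem rch_trans {A : Matrix ι ι ℕ} {i l j : ι} (h1 : Rch A i l) (h2 : Rch A l j) : Rch A i j := by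
  obtain ⟨m, hm⟩ := h1
  obtain ⟨n, hn⟩ := h2
  exact ⟨m + n, pow_pos_add hm hn⟩

theorem rch_one {A : Matrix ι ι ℕ} {i j : ι} (h : 0 < A i j) : Rch A i j := ⟨1, by rwa [pow_one]⟩

/-- the submatrix on the class `C` has the same positive entries in all powers -/
theorem sub_pow_pos (A : Matrix ι ι ℕ) (a : ι) (C : Finset ι)
    (hC : ∀ i, i ∈ C ↔ Rch A a i ∧ Rch A i a) (n : ℕ) :
    ∀ i j : C, 0 < (A ^ n) i j →
      0 < ((A.submatrix (fun i : C => (i : ι)) (fun j : C => (j : ι))) ^ n) i j := by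
  induction n with
  | zero =>
    intro i j h
    rw [pow_zero, Matrix.one_apply] at h ⊢
    by_cases hij : (i : ι) = j
    · rw [if_pos (Subtype.ext hij)]
      exact Nat.one_pos
    · rw [if_neg hij] at h
      exact absurd h (lt_irrefl 0)
  | succ n ih =>
    intro i j h
    rw [pow_succ', Matrix.mul_apply] at h
    obtain ⟨l, -, hl⟩ := Finset.exists_ne_zero_of_sum_ne_zero (ne_of_gt h)
    have h1 : 0 < A i l := Nat.pos_of_ne_zero fun h0 => hl (by rw [h0, zero_mul])
    have h2 : 0 < (A ^ n) l j := Nat.pos_of_ne_zero fun h0 => hl (by rw [h0, mul_zero])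
    have hlC : l ∈ C := by
      rw [hC]
      exact ⟨rch_trans ((hC i).1 i.2).1 (rch_one h1), rch_trans ⟨n, h2⟩ ((hC j).1 j.2).2⟩
    have h3 := ih ⟨l, hlC⟩ j h2
    rw [pow_succ', Matrix.mul_apply]
    refine lt_of_lt_of_le (Nat.mul_pos ?_ h3) (Finset.single_le_sum
      (f := fun l : C => (A.submatrix (fun i : C => (i : ι)) (fun j : C => (j : ι))) i l *
        ((A.submatrix (fun i : C => (i : ι)) (fun j : C => (j : ι))) ^ n) l j)
      (fun _ _ => Nat.zero_le _) (Finset.mem_univ (⟨l, hlC⟩ : C)))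
    exact h1

/-- **Main theorem on matrices.** If every index `i` that is reachable from `a` and returns to
itself has two consecutive return times, then the orbit of every vector is eventually
nondecreasing at `a`. -/
theorem aper_mono (A : Matrix ι ι ℕ) (x : ι → ℕ) : ∀ (s : ℕ) (a : ι),
    Set.ncard {i | Rch A a i} ≤ s →
    (∀ i, Rch A a i → (∃ n, 0 < n ∧ 0 < (A ^ n) i i) →
      ∃ m, 0 < (A ^ m) i i ∧ 0 < (A ^ (m + 1)) i i) →
    ∃ N, ∀ n, N ≤ n → orb A x n a ≤ orb A x (n + 1) a := by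
  classical
  intro s
  induction s with
  | zero =>
    intro a hs
    exfalso
    have h1 : 0 < Set.ncard {i | Rch A a i} :=
      (Set.ncard_pos (Set.toFinite _)).2 ⟨a, rch_refl A a⟩
    omega
  | succ s ih =>
    intro a hs hap
    obtain ⟨C, hC⟩ : ∃ C : Finset ι, ∀ i, i ∈ C ↔ Rch A a i ∧ Rch A i a :=
      ⟨Finset.univ.filter fun i => Rch A a i ∧ Rch A i a, fun i => by simp⟩
    have haC : a ∈ C := (hC a).2 ⟨rch_refl A a, rch_refl A a⟩
    -- the lower indices
    have hlow : ∀ c, Rch A a c → c ∉ C →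
        ∃ N, ∀ n, N ≤ n → orb A x n c ≤ orb A x (n + 1) c := by
      intro c hac hcC
      refine ih c ?_ (fun i hi hr => hap i (rch_trans hac hi) hr)
      have h1 : {i | Rch A c i} ⊂ {i | Rch A a i} := by
        refine ⟨fun i hi => rch_trans hac hi, fun h => ?_⟩
        have h2 : Rch A c a := h (rch_refl A a)
        exact hcC ((hC c).2 ⟨hac, h2⟩)
      have h2 := Set.ncard_lt_ncard h1 (Set.toFinite _)
      omega
    obtain ⟨N1, hN1⟩ : ∃ N1, ∀ c, Rch A a c → c ∉ C → ∀ n, N1 ≤ n →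
        orb A x n c ≤ orb A x (n + 1) c := by
      have h1 : ∀ c, ∃ N, Rch A a c → c ∉ C → ∀ n, N ≤ n →
          orb A x n c ≤ orb A x (n + 1) c := by
        intro c
        by_cases h : Rch A a c ∧ c ∉ C
        · obtain ⟨N, hN⟩ := hlow c h.1 h.2
          exact ⟨N, fun _ _ => hN⟩
        · exact ⟨0, fun h1 h2 => absurd ⟨h1, h2⟩ h⟩
      choose N hN using h1
      refine ⟨∑ c, N c, fun c h1 h2 n hn => hN c h1 h2 n (le_trans ?_ hn)⟩
      exact Finset.single_le_sum (f := N) (fun _ _ => Nat.zero_le _) (Finset.mem_univ c)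
    -- the block
    obtain ⟨B, hB⟩ : ∃ B : Matrix C C ℕ,
      B = A.submatrix (fun i : C => (i : ι)) (fun j : C => (j : ι)) := ⟨_, rfl⟩
    obtain ⟨x0, hx0⟩ : ∃ x0 : C → ℕ, x0 = fun i : C => orb A x N1 i := ⟨_, rfl⟩
    have hblock : ∃ t0, ∀ m, t0 ≤ m → ∀ i, orb B x0 m i ≤ orb B x0 (m + 1) i := by
      by_cases hcard : 2 ≤ Fintype.card C
      · -- primitive block
        have hirr : ∀ i j, ∃ n, 0 < (B ^ n) i j := by
          intro i j
          obtain ⟨n, hn⟩ := rch_trans ((hC i).1 i.2).2 ((hC j).1 j.2).1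
          refine ⟨n, ?_⟩
          rw [hB]
          exact sub_pow_pos A a C hC n i j hn
        have hret : ∃ n, 0 < n ∧ 0 < (A ^ n) a a := by
          obtain ⟨b, hb⟩ : ∃ b : C, b ≠ ⟨a, haC⟩ :=
            Fintype.exists_ne_of_one_lt_card (by omega) _
          obtain ⟨n1, hn1⟩ := ((hC b).1 b.2).1
          obtain ⟨n2, hn2⟩ := ((hC b).1 b.2).2
          refine ⟨n1 + n2, ?_, pow_pos_add hn1 hn2⟩
          rcases Nat.eq_zero_or_pos n1 with h0 | h0
          · exfalso
            rw [h0, pow_zero, Matrix.one_apply] at hn1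
            by_cases h3 : a = (b : ι)
            · exact hb (Subtype.ext h3.symm)
            · rw [if_neg h3] at hn1
              exact absurd hn1 (lt_irrefl 0)
          · omega
        obtain ⟨m, hm1, hm2⟩ := hap a (rch_refl A a) hret
        have h1 : 0 < (B ^ m) ⟨a, haC⟩ ⟨a, haC⟩ := by
          rw [hB]
          exact sub_pow_pos A a C hC m ⟨a, haC⟩ ⟨a, haC⟩ hm1
        have h2 : 0 < (B ^ (m + 1)) ⟨a, haC⟩ ⟨a, haC⟩ := by
          rw [hB]
          exact sub_pow_pos A a C hC (m + 1) ⟨a, haC⟩ ⟨a, haC⟩ hm2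
        obtain ⟨k, hk⟩ := prim_pow B hirr h1 h2
        exact prim_vec B k hk hcard x0
      · have hsub : Subsingleton C := Fintype.card_le_one_iff_subsingleton.1 (by omega)
        exact ⟨1, sub_vec B x0⟩
    obtain ⟨t0, ht0⟩ := hblock
    -- the comparison
    obtain ⟨Y, hY⟩ : ∃ Y : ℕ → ι → ℕ, ∀ n i, Y n i = ∑ j ∈ Cᶜ, A i j * orb A x n j :=
      ⟨_, fun _ _ => rfl⟩
    have hYmono : ∀ i ∈ C, ∀ n, N1 ≤ n → Y n i ≤ Y (n + 1) i := by
      intro i hi n hn
      rw [hY, hY]
      refine Finset.sum_le_sum fun j hj => ?_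
      rcases Nat.eq_zero_or_pos (A i j) with h0 | h0
      · rw [h0, zero_mul, zero_mul]
      · refine Nat.mul_le_mul_left _ (hN1 j ?_ ?_ n hn)
        · exact rch_trans ((hC i).1 hi).1 (rch_one h0)
        · exact Finset.mem_compl.1 hj
    have hrec : ∀ n (i : C), orb A x (n + 1) i = (∑ j : C, B i j * orb A x n j) + Y n i := by
      intro n i
      rw [orb_succ, hY, ← Finset.sum_add_sum_compl C, hB]
      congr 1
      exact (Finset.sum_coe_sort C (fun j => A (i : ι) j * orb A x n j)).symm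
    have key : ∀ m (i : C), (orb B x0 (m + 1) i : ℤ) - orb B x0 m i ≤
        (orb A x (N1 + m + 1) i : ℤ) - orb A x (N1 + m) i := by
      intro m
      induction m with
      | zero =>
        intro i
        have h1 := hrec N1 i
        have h2 := orb_succ B x0 0 i
        rw [orb_zero] at h2
        rw [orb_zero, h2, add_zero, h1, hx0]
        push_cast
        have h3 : (0 : ℤ) ≤ (Y N1 i : ℤ) := Int.natCast_nonneg _
        linarith
      | succ m ihm =>
        intro i
        have h1 := hrec (N1 + m + 1) i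
        have h2 := hrec (N1 + m) i
        have h3 := orb_succ B x0 (m + 1) i
        have h4 := orb_succ B x0 m i
        have h5 := hYmono i i.2 (N1 + m) (by omega)
        have h6 : (∑ j : C, (B i j : ℤ) * ((orb B x0 (m + 1) j : ℤ) - orb B x0 m j)) ≤
            ∑ j : C, (B i j : ℤ) * ((orb A x (N1 + m + 1) j : ℤ) - orb A x (N1 + m) j) := by
          refine Finset.sum_le_sum fun j _ => ?_
          exact mul_le_mul_of_nonneg_left (ihm j) (Int.natCast_nonneg _)
        rw [show N1 + (m + 1) + 1 = N1 + m + 1 + 1 by omega,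
          show N1 + (m + 1) = N1 + m + 1 by omega, h1, h3]
        rw [show orb A x (N1 + m + 1) i = (∑ j : C, B i j * orb A x (N1 + m) j) + Y (N1 + m) i
          from h2]
        rw [h4]
        push_cast
        simp only [mul_sub, Finset.sum_sub_distrib] at h6
        have h7 : ((Y (N1 + m) i : ℕ) : ℤ) ≤ Y (N1 + m + 1) i := by exact_mod_cast h5
        linarith
    refine ⟨N1 + t0, fun n hn => ?_⟩
    obtain ⟨m, rfl⟩ := Nat.exists_eq_add_of_le (show N1 ≤ n by omega)
    have h1 := key m ⟨a, haC⟩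
    have h2 := ht0 m (by omega) ⟨a, haC⟩
    have h3 : ((orb B x0 m ⟨a, haC⟩ : ℕ) : ℤ) ≤ orb B x0 (m + 1) ⟨a, haC⟩ := by exact_mod_cast h2
    have h4 : ((orb A x (N1 + m) a : ℕ) : ℤ) ≤ orb A x (N1 + m + 1) a := by linarith
    exact_mod_cast h4

end Pool.Agent.Helper6.AP
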