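import Mathlib

/-!
# Aperiodic nonnegative integer matrices: powers applied to a vector are eventually nondecreasing

Used for problem MP_0462fc_lc (q-step monotonicity of D0L growth functions).
-/

set_option autoImplicit false

namespace Pool.Agent.Helper6.AP

open Finset

variable {ι : Type*} [Fintype ι] [DecidableEq ι]

/-- the orbit of the vector `x` -/
def orb (B : Matrix ι ι ℕ) (x : ι → ℕ) (t : ℕ) : ι → ℕ := (B ^ t).mulVec x

theorem orb_zero (B : Matrix ι ι ℕ) (x : ι → ℕ) : orb B x 0 = x := by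
  unfold orb
  rw [pow_zero, Matrix.one_mulVec]

theorem orb_add (B : Matrix ι ι ℕ) (x : ι → ℕ) (t k : ℕ) :
    orb B x (t + k) = (B ^ k).mulVec (orb B x t) := by
  unfold orb
  rw [Matrix.mulVec_mulVec, ← pow_add, add_comm]

theorem orb_succ (B : Matrix ι ι ℕ) (x : ι → ℕ) (t : ℕ) (i : ι) :
    orb B x (t + 1) i = ∑ j, B i j * orb B x t j := by
  rw [orb_add, pow_one]
  rfl

theorem orb_add_apply (B : Matrix ι ι ℕ) (x : ι → ℕ) (t k : ℕ) (i : ι) :
    orb B x (t + k) i = ∑ j, (B ^ k) i j * orb B x t j := by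
  rw [orb_add]
  rfl

/-- the property `X t ≤ μ X (t+1)` -/
def Rat' (B : Matrix ι ι ℕ) (x : ι → ℕ) (μ : ℝ) (t : ℕ) : Prop :=
  ∀ i, (orb B x t i : ℝ) ≤ μ * orb B x (t + 1) i

theorem rat_add {B : Matrix ι ι ℕ} {x : ι → ℕ} {μ : ℝ} {t : ℕ} (h : Rat' B x μ t) (k : ℕ) :
    Rat' B x μ (t + k) := by
  intro i
  rw [show t + k + 1 = t + 1 + k by omega, orb_add_apply B x t k, orb_add_apply B x (t + 1) k]
  push_cast
  rw [Finset.mul_sum]
  refine Finset.sum_le_sum fun j _ => ?_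
  have h1 := h j
  have h2 : (0 : ℝ) ≤ ((B ^ k) i j : ℝ) := Nat.cast_nonneg _
  nlinarith [mul_le_mul_of_nonneg_left h1 h2]

/-- a positive power and at least two indices: the orbit is eventually nondecreasing -/
theorem prim_vec (B : Matrix ι ι ℕ) (k : ℕ) (hk : ∀ i j, 1 ≤ (B ^ k) i j)
    (hcard : 2 ≤ Fintype.card ι) (x : ι → ℕ) :
    ∃ N, ∀ n, N ≤ n → ∀ i, orb B x n i ≤ orb B x (n + 1) i := by
  classical
  by_contra hcon
  push Not at hcon
  -- the sums
  obtain ⟨S, hS⟩ : ∃ S : ℕ → ℕ, ∀ t, S t = ∑ i, orb B x t i := ⟨_, fun _ => rfl⟩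
  have hSpos : ∀ t, 0 < S t := by
    intro t
    by_contra h0
    have h1 : S t = 0 := by omega
    rw [hS] at h1
    have h2 : ∀ i, orb B x t i = 0 := fun i => by
      have := Finset.sum_eq_zero_iff.1 h1 i (Finset.mem_univ i)
      exact this
    obtain ⟨n, hn, i, hi⟩ := hcon t
    obtain ⟨m, rfl⟩ := Nat.exists_eq_add_of_le hn
    rw [orb_add_apply B x t m] at hi
    simp [h2] at hi
  -- growth over `k` steps
  have hgrow : ∀ t i, S t ≤ orb B x (t + k) i := by
    intro t i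
    rw [hS, orb_add_apply]
    refine Finset.sum_le_sum fun j _ => ?_
    exact Nat.le_mul_of_pos_left _ (hk i j)
  have hgrow2 : ∀ t, 2 * S t ≤ S (t + k) := by
    intro t
    rw [hS (t + k)]
    calc 2 * S t ≤ Fintype.card ι * S t := Nat.mul_le_mul_right _ hcard
      _ = ∑ _i : ι, S t := by simp
      _ ≤ ∑ i, orb B x (t + k) i := Finset.sum_le_sum fun i _ => hgrow t i
  -- the constant `c`
  obtain ⟨c, hc⟩ : ∃ c : ℕ, c = ∑ i, ∑ j, (B ^ k) i j := ⟨_, rfl⟩
  have hcij : ∀ i j, (B ^ k) i j ≤ c := by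
    intro i j
    rw [hc]
    refine le_trans (Finset.single_le_sum (f := fun j => (B ^ k) i j) (fun _ _ => Nat.zero_le _)
      (Finset.mem_univ j)) ?_
    exact Finset.single_le_sum (f := fun i => ∑ j, (B ^ k) i j) (fun _ _ => Nat.zero_le _)
      (Finset.mem_univ i)
  have hc1 : 1 ≤ c := by
    have : Nonempty ι := Fintype.card_pos_iff.1 (by omega)
    obtain ⟨i⟩ := this
    exact (hk i i).trans (hcij i i)
  have hup : ∀ t i, orb B x (t + k) i ≤ c * S t := by
    intro t i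
    rw [hS, orb_add_apply, Finset.mul_sum]
    exact Finset.sum_le_sum fun j _ => Nat.mul_le_mul_right _ (hcij i j)
  -- the set of ratios
  obtain ⟨R, hR⟩ : ∃ R : Set ℝ, R = {μ | ∃ t, Rat' B x μ t} := ⟨_, rfl⟩
  have hRne : R.Nonempty := by
    refine ⟨(S k : ℝ), ?_⟩
    rw [hR]
    refine ⟨k, fun i => ?_⟩
    have h1 : orb B x k i ≤ S k := by
      rw [hS]
      exact Finset.single_le_sum (f := fun i => orb B x k i) (fun _ _ => Nat.zero_le _)
        (Finset.mem_univ i)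
    have h2 : 1 ≤ orb B x (k + 1) i := by
      have h3 := hgrow 1 i
      have h4 := hSpos 1
      rw [add_comm]
      omega
    have h3 : orb B x k i ≤ S k * orb B x (k + 1) i :=
      h1.trans (Nat.le_mul_of_pos_right _ h2)
    exact_mod_cast h3
  have hR1 : ∀ μ ∈ R, 1 ≤ μ := by
    intro μ hμ
    rw [hR] at hμ
    obtain ⟨t, ht⟩ := hμ
    by_contra h1
    push Not at h1
    obtain ⟨n, hn, i, hi⟩ := hcon t
    obtain ⟨m, rfl⟩ := Nat.exists_eq_add_of_le hn
    have h2 := rat_add ht m i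
    have h3 : ((orb B x (t + m + 1) i : ℕ) : ℝ) < ((orb B x (t + m) i : ℕ) : ℝ) := by
      exact_mod_cast hi
    have h4 : (0 : ℝ) ≤ ((orb B x (t + m + 1) i : ℕ) : ℝ) := Nat.cast_nonneg _
    nlinarith
  have hRb : BddBelow R := ⟨1, fun μ hμ => hR1 μ hμ⟩
  obtain ⟨lam, hlam⟩ : ∃ lam : ℝ, lam = sInf R := ⟨_, rfl⟩
  have hlam1 : 1 ≤ lam := by
    rw [hlam]
    exact le_csInf hRne hR1
  -- the small number
  obtain ⟨y, hy⟩ : ∃ y : ℝ, y = 1 / (2 * ((k : ℝ) + 1)) := ⟨_, rfl⟩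
  have hkk : (0 : ℝ) ≤ (k : ℝ) := Nat.cast_nonneg _
  have hy0 : 0 < y := by
    rw [hy]
    positivity
  have hy1 : y ≤ 1 / 2 := by
    rw [hy]
    rw [div_le_div_iff₀ (by positivity) (by norm_num)]
    linarith
  have hyk : 1 / 2 < (1 - y) ^ k := by
    have h1 : 1 + (k : ℝ) * (-y) ≤ (1 + (-y)) ^ k := one_add_mul_le_pow (by linarith) k
    have h2 : (k : ℝ) * y < 1 / 2 := by
      rw [hy, mul_one_div, div_lt_div_iff₀ (by positivity) (by norm_num)]
      linarith
    have h3 : (1 : ℝ) - y = 1 + (-y) := by ring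
    rw [h3]
    nlinarith
  have hcR : (1 : ℝ) ≤ (c : ℝ) := by exact_mod_cast hc1
  obtain ⟨ε, hε⟩ : ∃ ε : ℝ, ε = y / (2 * c) := ⟨_, rfl⟩
  have hε0 : 0 < ε := by
    rw [hε]
    positivity
  obtain ⟨μ, hμR, hμ⟩ : ∃ μ ∈ R, μ < lam + ε := by
    have h1 : sInf R < lam + ε := by
      rw [← hlam]
      linarith
    exact exists_lt_of_csInf_lt hRne h1
  have hμ1 := hR1 μ hμR
  rw [hR] at hμR
  obtain ⟨t, ht⟩ := hμR
  -- one step of the sums
  have hstep : ∀ T, t ≤ T → (1 - y) * (S (T + 1) : ℝ) ≤ S T := by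
    intro T hT
    obtain ⟨m, rfl⟩ := Nat.exists_eq_add_of_le hT
    have hP := rat_add ht m
    have hnot : ¬ Rat' B x (lam - ε) (t + m + k) := by
      intro h1
      have h2 : lam - ε ∈ R := by
        rw [hR]
        exact ⟨_, h1⟩
      have h3 := csInf_le hRb h2
      rw [← hlam] at h3
      linarith
    unfold Rat' at hnot
    push Not at hnot
    obtain ⟨i, hi⟩ := hnot
    have hsum : (μ * (S (t + m + 1) : ℝ) - S (t + m)) ≤
        μ * (orb B x (t + m + 1 + k) i : ℝ) - orb B x (t + m + k) i := by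
      rw [hS, hS, orb_add_apply B x (t + m + 1) k, orb_add_apply B x (t + m) k]
      push_cast
      rw [Finset.mul_sum, Finset.mul_sum, ← Finset.sum_sub_distrib, ← Finset.sum_sub_distrib]
      refine Finset.sum_le_sum fun j _ => ?_
      have h1 := hP j
      have h2 : (1 : ℝ) ≤ ((B ^ k) i j : ℝ) := by exact_mod_cast hk i j
      nlinarith
    have hup' : (orb B x (t + m + 1 + k) i : ℝ) ≤ c * S (t + m + 1) := by
      exact_mod_cast hup (t + m + 1) i
    have hi' : (lam - ε) * (orb B x (t + m + 1 + k) i : ℝ) < orb B x (t + m + k) i := by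
      rw [show t + m + 1 + k = t + m + k + 1 by omega]
      exact hi
    have h0 : (0 : ℝ) ≤ (orb B x (t + m + 1 + k) i : ℝ) := Nat.cast_nonneg _
    have h5 : μ * (S (t + m + 1) : ℝ) - S (t + m) ≤ 2 * ε * (orb B x (t + m + 1 + k) i : ℝ) := by
      nlinarith
    have h6 : 2 * ε * (orb B x (t + m + 1 + k) i : ℝ) ≤ 2 * ε * (c * S (t + m + 1)) :=
      mul_le_mul_of_nonneg_left hup' (by linarith)
    have h7 : 2 * ε * ((c : ℝ) * S (t + m + 1)) = y * S (t + m + 1) := by
      rw [hε]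
      field_simp
    have h8 : (0 : ℝ) ≤ (S (t + m + 1) : ℝ) := Nat.cast_nonneg _
    nlinarith
  -- iterate
  have hiter : ∀ j : ℕ, (1 - y) ^ j * (S (t + j) : ℝ) ≤ S t := by
    intro j
    induction j with
    | zero => simp
    | succ j ih =>
      have h1 := hstep (t + j) (by omega)
      have h2 : (0 : ℝ) ≤ (1 - y) ^ j := pow_nonneg (by linarith) j
      have h3 := mul_le_mul_of_nonneg_left h1 h2
      rw [show t + (j + 1) = t + j + 1 by omega, pow_succ]
      linarith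
  have h1 := hiter k
  have h2 : (2 : ℝ) * S t ≤ S (t + k) := by exact_mod_cast hgrow2 t
  have h3 : (0 : ℝ) < S t := by exact_mod_cast hSpos t
  have h4 : (1 - y) ^ k * (2 * (S t : ℝ)) ≤ (1 - y) ^ k * S (t + k) :=
    mul_le_mul_of_nonneg_left h2 (by linarith)
  nlinarith

/-- one index -/
theorem sub_vec [Subsingleton ι] (B : Matrix ι ι ℕ) (x : ι → ℕ) :
    ∀ n, 1 ≤ n → ∀ i, orb B x n i ≤ orb B x (n + 1) i := by
  intro n hn i
  have hone : ∀ t, orb B x (t + 1) i = B i i * orb B x t i := by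
    intro t
    rw [orb_succ]
    rw [Finset.sum_eq_single i]
    · intro j _ hj
      exact absurd (Subsingleton.elim j i) hj
    · intro h
      exact absurd (Finset.mem_univ i) h
  rw [hone n]
  rcases Nat.eq_zero_or_pos (B i i) with h0 | h0
  · obtain ⟨m, rfl⟩ : ∃ m, n = m + 1 := ⟨n - 1, by omega⟩
    rw [hone m, h0]
    simp
  · exact Nat.le_mul_of_pos_left _ h0

theorem pow_pos_add {A : Matrix ι ι ℕ} {m n : ℕ} {i l j : ι} (h1 : 0 < (A ^ m) i l)
    (h2 : 0 < (A ^ n) l j) : 0 < (A ^ (m + n)) i j := by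
  rw [pow_add, Matrix.mul_apply]
  refine lt_of_lt_of_le (Nat.mul_pos h1 h2) ?_
  exact Finset.single_le_sum (f := fun l => (A ^ m) i l * (A ^ n) l j)
    (fun _ _ => Nat.zero_le _) (Finset.mem_univ l)

theorem pow_pos_mul {A : Matrix ι ι ℕ} {m : ℕ} {i : ι} (h1 : 0 < (A ^ m) i i) (u : ℕ) :
    0 < (A ^ (u * m)) i i := by
  induction u with
  | zero => simp
  | succ u ih =>
    rw [Nat.succ_mul]
    exact pow_pos_add ih h1

/-- two consecutive return times: all large numbers are return times -/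
theorem return_large {A : Matrix ι ι ℕ} {m : ℕ} {a : ι} (h1 : 0 < (A ^ m) a a)
    (h2 : 0 < (A ^ (m + 1)) a a) (n : ℕ) (hn : m * m ≤ n) : 0 < (A ^ n) a a := by
  obtain ⟨u, v, huv⟩ : ∃ u v, n = u * m + v * (m + 1) := by
    rcases Nat.eq_zero_or_pos m with h0 | h0
    · exact ⟨0, n, by rw [h0]; omega⟩
    · refine ⟨n / m - n % m, n % m, ?_⟩
      have h3 : n % m < m := Nat.mod_lt _ h0
      have h4 : m ≤ n / m := (Nat.le_div_iff_mul_le h0).2 hn
      have h5 : n / m - n % m + n % m = n / m := Nat.sub_add_cancel (by omega)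
      have h6 : (n / m - n % m) * m + n % m * (m + 1) =
          (n / m - n % m + n % m) * m + n % m := by ring
      rw [h6, h5, Nat.div_add_mod']
  rw [huv]
  exact pow_pos_add (pow_pos_mul h1 u) (pow_pos_mul h2 v)

/-- irreducible with two consecutive return times: primitive -/
theorem prim_pow (B : Matrix ι ι ℕ) (hirr : ∀ i j, ∃ n, 0 < (B ^ n) i j) {a : ι} {m : ℕ}
    (h1 : 0 < (B ^ m) a a) (h2 : 0 < (B ^ (m + 1)) a a) : ∃ k, ∀ i j, 1 ≤ (B ^ k) i j := by
  choose P hP using hirr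
  refine ⟨(∑ i, P i a) + (m * m + ∑ j, P a j), fun i j => ?_⟩
  have h3 : P i a ≤ ∑ i, P i a :=
    Finset.single_le_sum (f := fun i => P i a) (fun _ _ => Nat.zero_le _) (Finset.mem_univ i)
  have h4 : P a j ≤ ∑ j, P a j :=
    Finset.single_le_sum (f := fun j => P a j) (fun _ _ => Nat.zero_le _) (Finset.mem_univ j)
  obtain ⟨r, hr⟩ : ∃ r, (∑ i, P i a) + (m * m + ∑ j, P a j) = P i a + (r + P a j) ∧ m * m ≤ r := by
    refine ⟨((∑ i, P i a) - P i a) + m * m + ((∑ j, P a j) - P a j), ?_, ?_⟩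
    · omega
    · omega
  rw [hr.1]
  exact pow_pos_add (hP i a) (pow_pos_add (return_large h1 h2 r hr.2) (hP a j))

end Pool.Agent.Helper6.AP
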