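import Pool.Agent.Helper6.AP.Mat

/-!
# D0L systems whose cycle lengths are controlled by `q`: the certificate
-/

set_option autoImplicit false

namespace Pool.Agent.Helper6.AP

/-- `hⁿ(w)` for the D0L system `p = (words h(0), h(1), ..., axiom)` -/
def it (p : List (List ℕ) × List ℕ) (n : ℕ) (w : List ℕ) : List ℕ :=
  (fun w : List ℕ => w.flatMap (fun a => p.1.getD a []))^[n] w

variable (p : List (List ℕ) × List ℕ)

theorem it_zero (w : List ℕ) : it p 0 w = w := rfl

theorem it_add (m n : ℕ) (w : List ℕ) : it p (m + n) w = it p m (it p n w) := by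
  unfold it
  rw [Function.iterate_add_apply]

theorem it_one (w : List ℕ) : it p 1 w = w.flatMap (fun a => p.1.getD a []) := rfl

theorem it_succ_single (n : ℕ) (a : ℕ) : it p (n + 1) [a] = it p n (p.1.getD a []) := by
  rw [it_add, it_one]
  simp

theorem it_append (n : ℕ) (u v : List ℕ) : it p n (u ++ v) = it p n u ++ it p n v := by
  induction n generalizing u v with
  | zero => rfl
  | succ n ih =>
    rw [it_add, it_add, it_add, it_one, it_one, it_one, List.flatMap_append, ih]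

theorem it_nil (n : ℕ) : it p n [] = [] := by
  induction n with
  | zero => rfl
  | succ n ih =>
    rw [it_add, it_one]
    exact ih

theorem it_cons (n : ℕ) (a : ℕ) (w : List ℕ) : it p n (a :: w) = it p n [a] ++ it p n w := by
  rw [← it_append]
  rfl

theorem mem_it (n : ℕ) (b : ℕ) (w : List ℕ) : b ∈ it p n w ↔ ∃ a ∈ w, b ∈ it p n [a] := by
  induction w with
  | nil => simp [it_nil]
  | cons c w ih =>
    rw [it_cons, List.mem_append, ih]
    simp only [List.mem_cons]
    constructor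
    · rintro (h | ⟨a, ha, h⟩)
      · exact ⟨c, Or.inl rfl, h⟩
      · exact ⟨a, Or.inr ha, h⟩
    · rintro ⟨a, rfl | ha, h⟩
      · exact Or.inl h
      · exact Or.inr ⟨a, ha, h⟩

theorem sum_it (n : ℕ) (w : List ℕ) (F : List ℕ → ℕ) (h0 : F [] = 0)
    (hF : ∀ u v, F (u ++ v) = F u + F v) :
    F (it p n w) = (w.map fun a => F (it p n [a])).sum := by
  induction w with
  | nil => rw [it_nil, h0]; rfl
  | cons c w ih => rw [it_cons, hF, ih, List.map_cons, List.sum_cons]

/-- there is a bound for all letters -/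
theorem exists_bound : ∃ s : ℕ, (∀ a b, b ∈ p.1.getD a [] → b < s) ∧ ∀ b ∈ p.2, b < s := by
  have key : ∀ b ∈ p.1.flatten ++ p.2, b < (p.1.flatten ++ p.2).toFinset.sup id + 1 := by
    intro b hb
    have := Finset.le_sup (f := id) (List.mem_toFinset.2 hb)
    simp only [id] at this
    omega
  refine ⟨_, fun a b hb => key b ?_, fun b hb => key b (List.mem_append_right _ hb)⟩
  refine List.mem_append_left _ (List.mem_flatten.2 ?_)
  rcases lt_or_ge a p.1.length with h | h
  · refine ⟨p.1.getD a [], ?_, hb⟩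
    rw [List.getD_eq_getElem _ _ h]
    exact List.getElem_mem h
  · rw [List.getD_eq_default _ _ h] at hb
    exact absurd hb (List.not_mem_nil)

variable {p}

theorem lt_of_mem_it {s : ℕ} (hs : ∀ a b, b ∈ p.1.getD a [] → b < s) (n : ℕ) (w : List ℕ)
    (hw : ∀ b ∈ w, b < s) : ∀ b ∈ it p n w, b < s := by
  induction n generalizing w with
  | zero => exact hw
  | succ n ih =>
    rw [it_add, it_one]
    refine ih _ fun b hb => ?_
    obtain ⟨a, -, h⟩ := List.mem_flatMap.1 hb
    exact hs a b h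

theorem sum_map_fin {s : ℕ} (w : List ℕ) (hw : ∀ b ∈ w, b < s) (g : ℕ → ℕ) :
    (w.map g).sum = ∑ c : Fin s, w.count (c : ℕ) * g c := by
  induction w with
  | nil => simp
  | cons a w ih =>
    rw [List.map_cons, List.sum_cons, ih fun b hb => hw b (List.mem_cons_of_mem _ hb)]
    have ha : a < s := hw a List.mem_cons_self
    have h1 : ∀ c : Fin s, (a :: w).count (c : ℕ) * g c =
        (if c = ⟨a, ha⟩ then g a else 0) + w.count (c : ℕ) * g c := by
      intro c
      rw [List.count_cons]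
      by_cases h : c = ⟨a, ha⟩
      · rw [if_pos h]
        have h2 : (c : ℕ) = a := by rw [h]
        rw [h2]
        simp only [beq_self_eq_true, if_true]
        ring
      · rw [if_neg h]
        have h2 : ¬ a = (c : ℕ) := fun h3 => h (Fin.ext h3.symm)
        have h3 : (a == (c : ℕ)) = false := beq_eq_false_iff_ne.2 h2
        rw [h3]
        simp
    simp only [h1]
    rw [Finset.sum_add_distrib, Finset.sum_ite_eq' Finset.univ (⟨a, ha⟩ : Fin s) (fun _ => g a)]
    simp

/-- the growth matrix on the letters `< s` -/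
def gm (p : List (List ℕ) × List ℕ) (s : ℕ) : Matrix (Fin s) (Fin s) ℕ :=
  fun a b => (p.1.getD (a : ℕ) []).count (b : ℕ)

theorem count_it {s : ℕ} (hs : ∀ a b, b ∈ p.1.getD a [] → b < s) (n : ℕ) :
    ∀ a b : Fin s, (it p n [(a : ℕ)]).count (b : ℕ) = (gm p s ^ n) a b := by
  induction n with
  | zero =>
    intro a b
    rw [it_zero, pow_zero, Matrix.one_apply, List.count_singleton]
    by_cases h : a = b
    · rw [if_pos h, h]
      simp
    · rw [if_neg h]
      have h2 : ¬ (a : ℕ) = (b : ℕ) := fun h3 => h (Fin.ext h3)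
      have h3 : ((a : ℕ) == (b : ℕ)) = false := beq_eq_false_iff_ne.2 h2
      rw [h3]
      simp
  | succ n ih =>
    intro a b
    rw [it_succ_single, sum_it p n _ (fun l => l.count (b : ℕ)) (by simp)
      (fun u v => List.count_append), sum_map_fin _ (hs a), pow_succ', Matrix.mul_apply]
    refine Finset.sum_congr rfl fun c _ => ?_
    rw [ih]
    rfl

theorem mem_iff {s : ℕ} (hs : ∀ a b, b ∈ p.1.getD a [] → b < s) (n : ℕ) (a b : Fin s) :
    (b : ℕ) ∈ it p n [(a : ℕ)] ↔ 0 < (gm p s ^ n) a b := by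
  rw [← count_it hs, List.count_pos_iff]

theorem length_eq {s : ℕ} (hs : ∀ a b, b ∈ p.1.getD a [] → b < s) (n : ℕ) (a : Fin s) :
    (it p n [(a : ℕ)]).length = ∑ b, (gm p s ^ n) a b := by
  have h1 : ∀ b ∈ it p n [(a : ℕ)], b < s :=
    lt_of_mem_it hs n _ fun b hb => by rw [List.mem_singleton.1 hb]; exact a.2
  have h2 := sum_map_fin (it p n [(a : ℕ)]) h1 (fun _ => 1)
  rw [List.map_const', List.sum_replicate, smul_eq_mul, mul_one] at h2
  rw [h2]
  refine Finset.sum_congr rfl fun b _ => ?_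
  rw [count_it hs, mul_one]

/-- every common divisor of the return times of a reachable letter divides `q` -/
def Per (p : List (List ℕ) × List ℕ) (q : ℕ) : Prop :=
  ∀ a : ℕ, (∃ m, a ∈ it p m p.2) → (∃ n, 0 < n ∧ a ∈ it p n [a]) →
    ∀ d : ℕ, (∀ n, 0 < n → a ∈ it p n [a] → d ∣ n) → d ∣ q

theorem ret_add {a m n : ℕ} (h1 : a ∈ it p m [a]) (h2 : a ∈ it p n [a]) :
    a ∈ it p (m + n) [a] := by
  rw [it_add, mem_it]
  exact ⟨a, h2, h1⟩

/-- consecutive multiples of `q` are return times -/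
theorem cons_of_gcd {a q : ℕ}
    (h : ∀ d : ℕ, (∀ n, 0 < n → a ∈ it p n [a] → d ∣ n) → d ∣ q) :
    ∃ m, a ∈ it p (q * m) [a] ∧ a ∈ it p (q * (m + 1)) [a] := by
  rcases Nat.eq_zero_or_pos q with h0 | h0
  · refine ⟨0, ?_, ?_⟩ <;> rw [h0, zero_mul, it_zero] <;> exact List.mem_singleton.2 rfl
  obtain ⟨G, hG⟩ : ∃ G : Set ℕ, G = {n | 0 < n ∧ a ∈ it p n [a]} := ⟨_, rfl⟩
  have hcl : ∀ n ∈ AddSubmonoid.closure G, a ∈ it p n [a] := by
    intro n hn
    induction hn using AddSubmonoid.closure_induction with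
    | mem n hn =>
      rw [hG] at hn
      exact hn.2
    | zero => exact List.mem_singleton.2 rfl
    | add m n _ _ hm hn => exact ret_add hm hn
  have hd : Nat.setGcd G ∣ q := by
    refine h _ fun n hn ha => Nat.setGcd_dvd_of_mem ?_
    rw [hG]
    exact ⟨hn, ha⟩
  obtain ⟨n0, hn0⟩ := Nat.exists_mem_closure_of_ge G
  refine ⟨n0, hcl _ (hn0 _ ?_ (hd.mul_right _)), hcl _ (hn0 _ ?_ (hd.mul_right _))⟩
  · exact Nat.le_mul_of_pos_left _ h0
  · exact (Nat.le_succ n0).trans (Nat.le_mul_of_pos_left _ h0)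

/-- **The certificate exists.** -/
theorem cert_exists {q : ℕ} (hper : Per p q) :
    ∃ N, ∀ a, (∃ m, a ∈ it p m p.2) → (it p N [a]).length ≤ (it p (N + q) [a]).length := by
  rcases Nat.eq_zero_or_pos q with h0 | h0
  · refine ⟨0, fun a _ => ?_⟩
    rw [h0]
  obtain ⟨s, hs, hw⟩ := exists_bound p
  obtain ⟨D, hD⟩ : ∃ D, D = gm p s ^ q := ⟨_, rfl⟩
  have hDn : ∀ n, D ^ n = gm p s ^ (q * n) := fun n => by rw [hD, pow_mul]
  have hN : ∀ a : Fin s, ∃ N, (∃ m, (a : ℕ) ∈ it p m p.2) →
      ∀ n, N ≤ n → orb D (fun _ => 1) n a ≤ orb D (fun _ => 1) (n + 1) a := by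
    intro a
    by_cases hr : ∃ m, (a : ℕ) ∈ it p m p.2
    · obtain ⟨m0, hm0⟩ := hr
      have hside : ∀ i, Rch D a i → (∃ n, 0 < n ∧ 0 < (D ^ n) i i) →
          ∃ m, 0 < (D ^ m) i i ∧ 0 < (D ^ (m + 1)) i i := by
        rintro i ⟨k, hk⟩ ⟨n, hn, hn'⟩
        rw [hDn] at hk hn'
        have h1 : (i : ℕ) ∈ it p (q * k) [(a : ℕ)] := (mem_iff hs _ a i).2 hk
        have h2 : (i : ℕ) ∈ it p (q * n) [(i : ℕ)] := (mem_iff hs _ i i).2 hn'
        have h3 : ∃ m, (i : ℕ) ∈ it p m p.2 := by
          refine ⟨q * k + m0, ?_⟩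
          rw [it_add, mem_it]
          exact ⟨a, hm0, h1⟩
        obtain ⟨m, hm1, hm2⟩ := cons_of_gcd
          (hper i h3 ⟨q * n, Nat.mul_pos h0 hn, h2⟩)
        refine ⟨m, ?_, ?_⟩
        · rw [hDn]
          exact (mem_iff hs _ i i).1 hm1
        · rw [hDn]
          exact (mem_iff hs _ i i).1 hm2
      obtain ⟨N, hN⟩ := aper_mono D (fun _ => 1) _ a le_rfl hside
      exact ⟨N, fun _ => hN⟩
    · exact ⟨0, fun h => absurd h hr⟩
  choose N hN using hN
  refine ⟨q * ∑ a, N a, fun a ha => ?_⟩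
  have has : a < s := by
    obtain ⟨m, hm⟩ := ha
    exact lt_of_mem_it hs m _ hw a hm
  have h1 := hN ⟨a, has⟩ ha (∑ a, N a)
    (Finset.single_le_sum (f := N) (fun _ _ => Nat.zero_le _) (Finset.mem_univ _))
  have h2 : ∀ n, orb D (fun _ => 1) n ⟨a, has⟩ = (it p (q * n) [a]).length := by
    intro n
    have h3 := length_eq hs (q * n) (⟨a, has⟩ : Fin s)
    change (it p (q * n) [a]).length = _ at h3
    rw [h3, ← hDn]
    unfold orb Matrix.mulVec dotProduct
    simp
  rw [h2, h2, Nat.mul_succ] at h1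
  exact h1

/-- **The certificate is sound.** -/
theorem cert_sound {q N : ℕ} (R : List ℕ) (hR0 : ∀ a ∈ p.2, a ∈ R)
    (hR : ∀ a ∈ R, ∀ b ∈ p.1.getD a [], b ∈ R)
    (hN : ∀ a ∈ R, (it p N [a]).length ≤ (it p (N + q) [a]).length) (n : ℕ) (hn : N ≤ n) :
    (it p n p.2).length ≤ (it p (n + q) p.2).length := by
  obtain ⟨m, rfl⟩ := Nat.exists_eq_add_of_le hn
  have hmem : ∀ m, ∀ a ∈ it p m p.2, a ∈ R := by
    intro m
    induction m with
    | zero => exact hR0
    | succ m ih =>
      intro a ha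
      rw [add_comm, it_add, it_one, List.mem_flatMap] at ha
      obtain ⟨b, hb, hab⟩ := ha
      exact hR b (ih b hb) a hab
  rw [it_add, show N + m + q = N + q + m by omega, it_add p (N + q) m,
    sum_it p N _ List.length rfl (fun u v => List.length_append),
    sum_it p (N + q) _ List.length rfl (fun u v => List.length_append)]
  refine List.sum_le_sum fun a ha => hN a (hmem m a ha)

end Pool.Agent.Helper6.AP
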